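import Mathlib

/-! # Noetherian rings with a field acting, definitions -/

set_option autoImplicit false

namespace Pool.Agent.Helper861_FN

/-- left and right noetherian -/
def Noeth (S : Type*) [Ring S] : Prop := IsNoetherianRing S ∧ IsNoetherianRing Sᵐᵒᵖ

/-- every finite subset lies in a noetherian subring -/
def FNoetherian (R : Type*) [Ring R] : Prop :=
  ∀ X : Finset R, ∃ S : Subring R, (X : Set R) ⊆ S ∧ Noeth S

/-- one can choose noetherian subrings containing the finite subsets in a monotone way -/
def DirectedFNoetherian (R : Type*) [Ring R] : Prop :=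
  ∃ F : Finset R → Subring R, (∀ X : Finset R, (X : Set R) ⊆ F X ∧ Noeth (F X)) ∧
    ∀ X Y : Finset R, X ⊆ Y → F X ≤ F Y

/-- A ring which embeds, compatibly with left multiplication by the image of a field, in a
finite-dimensional space is left noetherian. -/
theorem noeth_left {S K V : Type*} [Ring S] [Field K] [AddCommGroup V] [Module K V]
    [FiniteDimensional K V] (j : K →+* S) (Φ : S →+ V) (hinj : Function.Injective Φ)
    (h : ∀ (k : K) (s : S), Φ (j k * s) = k • Φ s) : IsNoetherianRing S := by
  let _ : Module K S := Module.compHom S j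
  have : IsScalarTower K S S := ⟨fun k s t => by
    show (j k * s) * t = j k * (s * t)
    rw [mul_assoc]⟩
  let Φ' : S →ₗ[K] V :=
    { toFun := Φ
      map_add' := Φ.map_add
      map_smul' := fun k s => h k s }
  have : IsNoetherian K S := isNoetherian_of_injective Φ' hinj
  exact isNoetherian_of_tower K inferInstance

/-- the right-hand version -/
theorem noeth_right {S K V : Type*} [Ring S] [Field K] [AddCommGroup V] [Module K V]
    [FiniteDimensional K V] (j : K →+* S) (Φ : S →+ V) (hinj : Function.Injective Φ)
    (h : ∀ (k : K) (s : S), Φ (s * j k) = k • Φ s) : IsNoetherianRing Sᵐᵒᵖ := by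
  let j' : K →+* Sᵐᵒᵖ :=
    { toFun := fun k => MulOpposite.op (j k)
      map_one' := by simp
      map_mul' := fun a b => by
        rw [mul_comm a b, map_mul]; rfl
      map_zero' := by simp
      map_add' := fun a b => by simp }
  let Φ' : Sᵐᵒᵖ →+ V := Φ.comp (MulOpposite.opAddEquiv.symm : Sᵐᵒᵖ ≃+ S).toAddMonoidHom
  refine noeth_left j' Φ' ?_ ?_
  · intro x y hxy
    exact MulOpposite.unop_injective (hinj hxy)
  · intro k s
    exact h k s.unop

end Pool.Agent.Helper861_FN
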