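import Mathlib

/-! # The field of rational functions in variables indexed by the integers -/

set_option autoImplicit false
set_option linter.unusedSectionVars false

namespace Pool.Agent.Helper861_FN

open TrivSqZeroExt

section Gen
variable {K : Type*} [Field K] [CharZero K]

/-- the infinitesimal part of a section -/
def dd (H : K →+* TrivSqZeroExt K K) (a : K) : K := (H a).snd

variable {H : K →+* TrivSqZeroExt K K} (hH : ∀ a, (H a).fst = a)

theorem dd_add (a b : K) : dd H (a + b) = dd H a + dd H b := by
  simp [dd]

include hH in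
theorem dd_mul (a b : K) : dd H (a * b) = a * dd H b + b * dd H a := by
  simp [dd, hH, mul_comm]

theorem dd_one : dd H 1 = 0 := by simp [dd]

theorem dd_zero : dd H 0 = 0 := by simp [dd]

theorem dd_neg (a : K) : dd H (-a) = - dd H a := by simp [dd]

include hH in
theorem dd_inv {a : K} (ha : dd H a = 0) : dd H a⁻¹ = 0 := by
  by_cases h0 : a = 0
  · subst h0; simpa using ha
  · have h1 : dd H (a * a⁻¹) = 0 := by rw [mul_inv_cancel₀ h0, dd_one]
    rw [dd_mul hH, ha, mul_zero, add_zero] at h1
    exact (mul_eq_zero.mp h1).resolve_left h0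

/-- the field of constants -/
def kf (H : K →+* TrivSqZeroExt K K) (hH : ∀ a, (H a).fst = a) : Subfield K where
  carrier := {a | dd H a = 0}
  mul_mem' := fun {a b} ha hb => by
    simp only [Set.mem_ofPred_eq] at ha hb ⊢
    rw [dd_mul hH, ha, hb]; simp
  one_mem' := dd_one
  add_mem' := fun {a b} ha hb => by
    simp only [Set.mem_ofPred_eq] at ha hb ⊢
    rw [dd_add, ha, hb]; simp
  zero_mem' := dd_zero
  neg_mem' := fun {a} ha => by
    simp only [Set.mem_ofPred_eq] at ha ⊢
    rw [dd_neg, ha, neg_zero]
  inv_mem' := fun a ha => dd_inv hH ha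

/-- the derivation over the constants -/
def der (H : K →+* TrivSqZeroExt K K) (hH : ∀ a, (H a).fst = a) : Derivation (kf H hH) K K where
  toFun := dd H
  map_add' := dd_add
  map_smul' := fun r a => by
    have hr : dd H (r : K) = 0 := r.2
    rw [Subfield.smul_def, smul_eq_mul, dd_mul hH, hr, mul_zero, add_zero]; rfl
  map_one_eq_zero' := dd_one
  leibniz' := fun a b => by
    show dd H (a * b) = _
    rw [dd_mul hH]; rfl

include hH in
theorem dd_eq_zero_of_integral {c : K} (hc : IsIntegral (kf H hH) c) : dd H c = 0 := by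
  have h0 : Polynomial.aeval c (minpoly (kf H hH) c) = 0 := minpoly.aeval _ _
  have h1 := (der H hH).map_aeval (minpoly (kf H hH) c) c
  rw [h0, map_zero] at h1
  have h2 : Polynomial.aeval c (Polynomial.derivative (minpoly (kf H hH) c)) ≠ 0 :=
    (minpoly.irreducible hc).separable.aeval_derivative_ne_zero h0
  exact (mul_eq_zero.mp h1.symm).resolve_left h2

include hH in
/-- a root of a monic polynomial with constant coefficients is constant -/
theorem dd_eq_zero {c : K} {n : ℕ} (a : Fin n → K) (ha : ∀ i, dd H (a i) = 0)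
    (hc : c ^ n = ∑ i : Fin n, a i * c ^ (i : ℕ)) : dd H c = 0 := by
  apply dd_eq_zero_of_integral hH
  let b : Fin n → kf H hH := fun i => ⟨a i, ha i⟩
  refine ⟨Polynomial.X ^ n - ∑ i : Fin n, Polynomial.C (b i) * Polynomial.X ^ (i : ℕ), ?_, ?_⟩
  · apply Polynomial.monic_X_pow_sub
    refine lt_of_le_of_lt (Polynomial.degree_sum_le _ _) ?_
    rw [Finset.sup_lt_iff (by simp [bot_lt_iff_ne_bot])]
    intro i _
    refine lt_of_le_of_lt (Polynomial.degree_C_mul_X_pow_le _ _) ?_
    exact_mod_cast i.2
  · rw [← Polynomial.aeval_def]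
    simp only [map_sub, map_pow, Polynomial.aeval_X, map_sum, map_mul, Polynomial.aeval_C]
    rw [hc, sub_eq_zero]
    rfl

end Gen

/-- polynomials -/
abbrev P := MvPolynomial ℤ ℚ

/-- rational functions -/
abbrev K := FractionRing P

/-- the variables -/
noncomputable def x (q : ℤ) : K := algebraMap P K (MvPolynomial.X q)

theorem hom_ext {T : Type*} [Ring T] {f g : K →+* T} (h : ∀ q, f (x q) = g (x q)) : f = g := by
  apply IsLocalization.ringHom_ext (nonZeroDivisors P)
  apply MvPolynomial.ringHom_ext
  · intro r
    have : (f.comp (algebraMap P K)).comp (MvPolynomial.C) =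
        (g.comp (algebraMap P K)).comp (MvPolynomial.C) := Subsingleton.elim _ _
    exact congrArg (fun t => t r) this
  · exact h

section Th
variable {V : Type*} [AddCommGroup V] [Module K V] [Module Kᵐᵒᵖ V] [IsCentralScalar K V]

/-- the section on polynomials -/
noncomputable def th0 (v : ℤ → V) : P →+* TrivSqZeroExt K V :=
  MvPolynomial.eval₂Hom ((inlHom K V).comp (algebraMap ℚ K)) (fun q => inl (x q) + inr (v q))

theorem fst_th0 (v : ℤ → V) (p : P) : (th0 v p).fst = algebraMap P K p := by
  have : ((fstHom K K V : TrivSqZeroExt K V →+* K).comp (th0 v)) = algebraMap P K := by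
    apply MvPolynomial.ringHom_ext
    · intro r
      have : (((fstHom K K V : TrivSqZeroExt K V →+* K).comp (th0 v))).comp (MvPolynomial.C) =
        (algebraMap P K).comp (MvPolynomial.C) := Subsingleton.elim _ _
      exact congrArg (fun t => t r) this
    · intro q
      simp [th0, x]
  exact congrArg (fun t => t p) this

/-- the section `K → K ⊕ V` sending `x q` to `x q + v q` -/
noncomputable def th (v : ℤ → V) : K →+* TrivSqZeroExt K V :=
  IsLocalization.lift (M := nonZeroDivisors P) (S := K) (g := th0 v) (by
    intro y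
    rw [isUnit_iff_isUnit_fst, fst_th0, isUnit_iff_ne_zero]
    exact IsFractionRing.to_map_ne_zero_of_mem_nonZeroDivisors y.2)

theorem th_x (v : ℤ → V) (q : ℤ) : th v (x q) = inl (x q) + inr (v q) := by
  unfold th
  rw [show x q = algebraMap P K (MvPolynomial.X q) from rfl, IsLocalization.lift_eq]
  simp [th0, x]

theorem fst_th (v : ℤ → V) (a : K) : (th v a).fst = a := by
  have : ((fstHom K K V : TrivSqZeroExt K V →+* K).comp (th v)) = RingHom.id K := by
    apply hom_ext
    intro q
    simp [th_x]
  exact congrArg (fun t => t a) this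

end Th

/-- the shift by `d` -/
noncomputable def sh (d : ℤ) : K →+* K :=
  IsFractionRing.lift (g := (algebraMap P K).comp
    ((MvPolynomial.rename (fun q => q + d) : P →ₐ[ℚ] P) : P →+* P)) (by
    intro a b hab
    exact MvPolynomial.rename_injective _ (add_left_injective d)
      (IsFractionRing.injective P K hab))

theorem sh_x (d q : ℤ) : sh d (x q) = x (q + d) := by
  unfold sh
  rw [show x q = algebraMap P K (MvPolynomial.X q) from rfl, IsFractionRing.lift_algebraMap]
  simp [x]

theorem sh_sh (d e : ℤ) (a : K) : sh d (sh e a) = sh (e + d) a := by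
  have : (sh d).comp (sh e) = sh (e + d) := by
    apply hom_ext
    intro q
    simp [sh_x, add_assoc]
  exact congrArg (fun t => t a) this

theorem sh_zero (a : K) : sh 0 a = a := by
  have : sh 0 = RingHom.id K := by
    apply hom_ext
    intro q
    simp [sh_x]
  exact congrArg (fun t => t a) this

/-- the coefficients module -/
abbrev M1 := ℤ →₀ K

/-- the section given by all partial derivatives -/
noncomputable def ph : K →+* TrivSqZeroExt K M1 := th (fun q => Finsupp.single q 1)

/-- one partial derivative as a section -/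
noncomputable def hj (j : ℤ) : K →+* TrivSqZeroExt K K :=
  ((TrivSqZeroExt.map (Finsupp.lapply j : M1 →ₗ[K] K) : TrivSqZeroExt K M1 →ₐ[K]
    TrivSqZeroExt K K) : TrivSqZeroExt K M1 →+* TrivSqZeroExt K K).comp ph

theorem fst_ph (a : K) : (ph a).fst = a := fst_th _ a

theorem fst_hj (j : ℤ) (a : K) : (hj j a).fst = a := by
  simp [hj, fst_ph]

theorem dd_hj (j : ℤ) (a : K) : dd (hj j) a = (ph a).snd j := by
  simp [hj, dd]

/-- the shift on dual numbers -/
noncomputable def ds : TrivSqZeroExt K K →+* TrivSqZeroExt K K where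
  toFun := fun y => inl (sh 1 y.fst) + inr (sh 1 y.snd)
  map_one' := by ext <;> simp
  map_mul' := fun a b => by ext <;> simp [mul_comm]
  map_zero' := by ext <;> simp
  map_add' := fun a b => by ext <;> simp

theorem hj_sh (j : ℤ) (a : K) : (ph (sh 1 a)).snd (j + 1) = sh 1 ((ph a).snd j) := by
  have h : (hj (j + 1)).comp (sh 1) = ds.comp (hj j) := by
    apply hom_ext
    intro q
    ext
    · simp [hj, sh_x, ph, th_x, ds]
    · simp [hj, sh_x, ph, th_x, ds, Finsupp.single_apply]
      split_ifs <;> simp
  have h1 : ((hj (j + 1)).comp (sh 1) a).snd = (ds.comp (hj j) a).snd := by rw [h]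
  simpa [hj, ds] using h1

theorem ph_x (q j : ℤ) : (ph (x q)).snd j = if q = j then 1 else 0 := by
  simp [ph, th_x, Finsupp.single_apply]

end Pool.Agent.Helper861_FN
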