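import Pool.Agent.Helper861_FN.Fld

/-! # The ring -/

set_option autoImplicit false
set_option linter.unusedSectionVars false

namespace Pool.Agent.Helper861_FN

open TrivSqZeroExt

/-- square-zero part of the commutative ring `A` -/
abbrev NN := ℤ × ℕ →₀ K

/-- the ring acting -/
abbrev E := TrivSqZeroExt K M1

/-- the commutative ring -/
abbrev A := TrivSqZeroExt K NN

/-- indices of the twisted bimodules -/
abbrev I := Option (ℤ → ℕ)

/-- restriction to the graph of `α` -/
noncomputable def pr (α : ℤ → ℕ) : NN →ₗ[K] M1 :=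
  Finsupp.lcomapDomain (fun q => (q, α q)) (fun _ _ h => (Prod.mk.inj h).1)

theorem pr_apply (α : ℤ → ℕ) (n : NN) (q : ℤ) : pr α n q = n (q, α q) := rfl

/-- first projection as a ring homomorphism -/
noncomputable def fs : A →+* K := (fstHom K K NN : A →+* K)

@[simp] theorem fs_apply (a : A) : fs a = a.fst := rfl

/-- the left actions -/
noncomputable def fI : I → A →+* E
  | none => ph.comp fs
  | some α => ((TrivSqZeroExt.map (pr α) : A →ₐ[K] E) : A →+* E)

/-- the right actions -/
noncomputable def gI : I → A →+* E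
  | none => (ph.comp (sh 1)).comp fs
  | some _ => ph.comp fs

/-- the twisted bimodule -/
def Tw (_ : I) : Type := E

noncomputable instance (i : I) : AddCommGroup (Tw i) := inferInstanceAs (AddCommGroup E)

noncomputable instance (i : I) : Module A (Tw i) :=
  fast_instance% (Module.compHom E (fI i) : Module A E)

noncomputable instance (i : I) : Module Aᵐᵒᵖ (Tw i) :=
  (Module.compHom E (RingHom.op (gI i)) : Module Aᵐᵒᵖ E)

/-- underlying element -/
def toE {i : I} (w : Tw i) : E := w

theorem smul_tw (i : I) (a : A) (w : Tw i) : toE (a • w) = fI i a * toE w := rfl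

theorem op_smul_tw (i : I) (a : A) (w : Tw i) :
    toE (MulOpposite.op a • w) = toE w * gI i a := rfl

instance (i : I) : SMulCommClass A Aᵐᵒᵖ (Tw i) := ⟨fun a b w => by
  obtain ⟨b⟩ := b
  exact (mul_assoc (fI i a) (toE w) (gI i b)).symm⟩

/-- the bimodule -/
abbrev W := Π₀ i : I, Tw i

/-- the ring -/
abbrev R := TrivSqZeroExt A W

/-- component of the bimodule part, as an element of `E` -/
noncomputable def co (r : R) (i : I) : E := toE (r.snd i)

theorem co_mul (r s : R) (i : I) : co (r * s) i = fI i r.fst * co s i + co r i * gI i s.fst := by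
  unfold co
  rw [snd_mul, DFinsupp.add_apply, DFinsupp.smul_apply, DFinsupp.smul_apply]
  rfl

theorem co_add (r s : R) (i : I) : co (r + s) i = co r i + co s i := rfl

theorem co_neg (r : R) (i : I) : co (-r) i = - co r i := rfl

theorem co_sub (r s : R) (i : I) : co (r - s) i = co r i - co s i := rfl

theorem co_zero (i : I) : co 0 i = 0 := rfl

theorem co_one (i : I) : co 1 i = 0 := rfl

theorem ext_R {r s : R} (h1 : r.fst = s.fst) (h2 : ∀ i, co r i = co s i) : r = s := by
  refine TrivSqZeroExt.ext h1 ?_
  ext i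
  exact h2 i

open Classical in
/-- element concentrated in one component of the bimodule -/
noncomputable def sg (i : I) (e : E) : R := inr (DFinsupp.single i (e : Tw i))

theorem fst_sg (i : I) (e : E) : (sg i e).fst = 0 := rfl

theorem co_sg (i : I) (e : E) : co (sg i e) i = e := by
  classical
  unfold co sg
  rw [snd_inr, DFinsupp.single_apply, dif_pos rfl]
  rfl

theorem co_sg_ne {i k : I} (h : k ≠ i) (e : E) : co (sg i e) k = 0 := by
  classical
  unfold co sg
  rw [snd_inr, DFinsupp.single_apply, dif_neg (Ne.symm h)]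
  rfl

theorem mul_sg (r : R) (i : I) (e : E) : r * sg i e = sg i (fI i r.fst * e) := by
  refine ext_R ?_ ?_
  · rw [fst_mul, fst_sg, fst_sg, mul_zero]
  · intro k
    rw [co_mul, fst_sg, map_zero, mul_zero, add_zero]
    by_cases h : k = i
    · subst h; rw [co_sg, co_sg]
    · rw [co_sg_ne h, co_sg_ne h, mul_zero]

theorem sg_mul (r : R) (i : I) (e : E) : sg i e * r = sg i (e * gI i r.fst) := by
  refine ext_R ?_ ?_
  · rw [fst_mul, fst_sg, fst_sg, zero_mul]
  · intro k
    rw [co_mul, fst_sg, map_zero, zero_mul, zero_add]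
    by_cases h : k = i
    · subst h; rw [co_sg, co_sg]
    · rw [co_sg_ne h, co_sg_ne h, zero_mul]

theorem sg_add (i : I) (e e' : E) : sg i (e + e') = sg i e + sg i e' := by
  refine ext_R (by simp [fst_sg]) ?_
  intro k
  rw [co_add]
  by_cases h : k = i
  · subst h; rw [co_sg, co_sg, co_sg]
  · rw [co_sg_ne h, co_sg_ne h, co_sg_ne h, add_zero]

theorem sg_sub (i : I) (e e' : E) : sg i (e - e') = sg i e - sg i e' := by
  refine ext_R (by simp [fst_sg]) ?_
  intro k
  rw [co_sub]
  by_cases h : k = i
  · subst h; rw [co_sg, co_sg, co_sg]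
  · rw [co_sg_ne h, co_sg_ne h, co_sg_ne h, sub_zero]

theorem sg_zero (i : I) : sg i 0 = 0 := by
  refine ext_R (by simp [fst_sg]) ?_
  intro k
  rw [co_zero]
  by_cases h : k = i
  · subst h; rw [co_sg]
  · rw [co_sg_ne h]

theorem sg_inj {i : I} {e e' : E} (h : sg i e = sg i e') : e = e' := by
  have := congrArg (fun r => co r i) h
  simpa [co_sg] using this

end Pool.Agent.Helper861_FN
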