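import Pool.Agent.Helper861_FN.Basic
import Pool.Agent.Helper861_FN.Rg

/-! # The ring is not a directed union of noetherian subrings -/

set_option autoImplicit false
set_option linter.unusedSectionVars false

namespace Pool.Agent.Helper861_FN

open TrivSqZeroExt

/-- the first generator -/
noncomputable def r0 : R := inl (inl (x 0))

theorem fst_pow_R (s : R) (k : ℕ) : (s ^ k).fst = s.fst ^ k := TrivSqZeroExt.fst_pow s k

theorem sg_none_pow (s : R) (k : ℕ) :
    sg none 1 * s ^ k = sg none (ph (sh 1 s.fst.fst ^ k)) := by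
  rw [sg_mul, one_mul, fst_pow_R]
  congr 1
  show ph (sh 1 ((s.fst ^ k).fst)) = _
  rw [TrivSqZeroExt.fst_pow, map_pow]

theorem co_sum {ι : Type*} (t : Finset ι) (g : ι → R) (i : I) :
    co (∑ k ∈ t, g k) i = ∑ k ∈ t, co (g k) i := by
  classical
  induction t using Finset.induction_on with
  | empty => simp [co_zero]
  | insert a t ha ih => rw [Finset.sum_insert ha, Finset.sum_insert ha, co_add, ih]

theorem forced (S : Subring R) (hS : IsNoetherianRing S) (h0 : r0 ∈ S) (h1 : sg none 1 ∈ S) :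
    ∀ j : ℕ, ∃ s ∈ S, (ph s.fst.fst).snd (j : ℤ) ≠ 0 := by
  intro j
  induction j with
  | zero =>
    refine ⟨r0, h0, ?_⟩
    show (ph (x 0)).snd ((0 : ℕ) : ℤ) ≠ 0
    rw [ph_x]; simp
  | succ j ih =>
    obtain ⟨s, hs, hD⟩ := ih
    by_contra hcon
    push Not at hcon
    have hc : (ph (sh 1 s.fst.fst)).snd ((j : ℤ) + 1) ≠ 0 := by
      rw [hj_sh]
      intro h
      exact hD ((map_eq_zero (sh 1)).mp h)
    apply hc
    let v : ℕ → S := fun k => ⟨sg none 1 * s ^ k, S.mul_mem h1 (S.pow_mem hs k)⟩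
    let J : ℕ →o Submodule S S :=
      ⟨fun n => Submodule.span S (Set.range (fun k : Fin n => v k)), by
        intro n m hnm
        apply Submodule.span_mono
        rintro _ ⟨k, rfl⟩
        exact ⟨⟨k, lt_of_lt_of_le k.2 hnm⟩, rfl⟩⟩
    obtain ⟨n, hn⟩ := monotone_stabilizes_iff_noetherian.mpr hS J
    have h2 : v n ∈ J n := by
      rw [hn (n + 1) (Nat.le_succ n)]
      exact Submodule.subset_span ⟨⟨n, Nat.lt_succ_self n⟩, rfl⟩
    obtain ⟨c, hcs⟩ := (Submodule.mem_span_range_iff_exists_fun S).mp h2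
    have h3 : (∑ k : Fin n, (c k : R) * (sg none 1 * s ^ (k : ℕ))) = sg none 1 * s ^ n := by
      have h := congrArg (Subtype.val) hcs
      rw [AddSubmonoidClass.coe_finsetSum] at h
      exact h
    have h4 := congrArg (fun r => co r none) h3
    simp only [co_sum, sg_none_pow, mul_sg, co_sg] at h4
    have h5 := congrArg TrivSqZeroExt.fst h4
    rw [TrivSqZeroExt.fst_sum, fst_ph] at h5
    have h6 : ∀ k : Fin n, (fI none (c k : R).fst * ph (sh 1 s.fst.fst ^ (k : ℕ))).fst =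
        (c k : R).fst.fst * sh 1 s.fst.fst ^ (k : ℕ) := by
      intro k
      rw [fst_mul, fst_ph]
      congr 1
      exact fst_ph _
    simp only [h6] at h5
    have h7 := dd_eq_zero (H := hj ((j : ℤ) + 1)) (fst_hj _) (c := sh 1 s.fst.fst) (n := n)
      (fun k => (c k : R).fst.fst) (fun k => by
        rw [dd_hj]
        have := hcon (c k) (c k).2
        simpa using this) h5.symm
    rwa [dd_hj] at h7

theorem fI_some_sub (α : ℤ → ℕ) (a : A) :
    fI (some α) a - gI (some α) a = inr (pr α a.snd - (ph a.fst).snd) := by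
  ext1
  · rw [fst_sub, fst_inr]
    show (TrivSqZeroExt.map (pr α) a).fst - (ph a.fst).fst = 0
    rw [fst_map, fst_ph, sub_self]
  · rw [snd_sub, snd_inr]
    show (TrivSqZeroExt.map (pr α) a).snd - (ph a.fst).snd = _
    rw [snd_map]

theorem mul_inr_E (e : E) (μ : M1) : e * inr μ = inr (e.fst • μ) := by
  ext1 <;> simp

theorem pin (α : ℤ → ℕ) (S : Subring R) (hS : IsNoetherianRing S) (h1 : sg (some α) 1 ∈ S) :
    ∃ n : ℕ, ∀ s ∈ S, ∀ q : ℕ, n ≤ q → s.fst.snd ((q : ℤ), α q) = (ph s.fst.fst).snd (q : ℤ) := by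
  let J : ℕ →o Submodule S S :=
    ⟨fun n =>
      { carrier := {y | ∃ μ : M1, (y : R) = sg (some α) (inr μ) ∧ ∀ q : ℕ, n ≤ q → μ (q : ℤ) = 0}
        add_mem' := by
          rintro y z ⟨μ, h1, h2⟩ ⟨ν, h3, h4⟩
          refine ⟨μ + ν, ?_, fun q hq => ?_⟩
          · rw [inr_add, sg_add, ← h1, ← h3]; rfl
          · rw [Finsupp.add_apply, h2 q hq, h4 q hq, add_zero]
        zero_mem' := ⟨0, by rw [inr_zero, sg_zero]; rfl, fun q _ => rfl⟩
        smul_mem' := by
          rintro c y ⟨μ, h1, h2⟩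
          refine ⟨(fI (some α) (c : R).fst).fst • μ, ?_, fun q hq => ?_⟩
          · rw [← mul_inr_E, ← mul_sg, ← h1]; rfl
          · rw [Finsupp.smul_apply, h2 q hq, smul_zero] }, by
      intro n m hnm y
      rintro ⟨μ, h1, h2⟩
      exact ⟨μ, h1, fun q hq => h2 q (le_trans hnm hq)⟩⟩
  obtain ⟨n, hn⟩ := monotone_stabilizes_iff_noetherian.mpr hS J
  refine ⟨n, fun s hs q hq => ?_⟩
  let μ : M1 := pr α s.fst.snd - (ph s.fst.fst).snd
  have hy : s * sg (some α) 1 - sg (some α) 1 * s = sg (some α) (inr μ) := by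
    rw [mul_sg, sg_mul, mul_one, one_mul, ← sg_sub, fI_some_sub]
  have hyS : s * sg (some α) 1 - sg (some α) 1 * s ∈ S :=
    S.sub_mem (S.mul_mem hs h1) (S.mul_mem h1 hs)
  obtain ⟨m, hm⟩ : ∃ m : ℕ, ∀ q : ℕ, m ≤ q → μ (q : ℤ) = 0 := by
    obtain ⟨B, hB⟩ := (μ.support.image Int.toNat).exists_nat_subset_range
    refine ⟨B, fun q hq => ?_⟩
    by_contra hne
    have h3 : q ∈ μ.support.image Int.toNat :=
      Finset.mem_image.mpr ⟨(q : ℤ), Finsupp.mem_support_iff.mpr hne, by simp⟩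
    have := Finset.mem_range.mp (hB h3)
    omega
  have h2 : (⟨_, hyS⟩ : S) ∈ J (max m n) := ⟨μ, hy, fun q hq => hm q (le_trans (le_max_left _ _) hq)⟩
  rw [← hn (max m n) (le_max_right _ _)] at h2
  obtain ⟨ν, h3, h4⟩ := h2
  have h5 : μ = ν := inr_injective (sg_inj (hy.symm.trans h3))
  have h6 := h4 q hq
  rw [← h5] at h6
  have h7 : s.fst.snd ((q : ℤ), α q) - (ph s.fst.fst).snd (q : ℤ) = 0 := h6
  exact sub_eq_zero.mp h7

theorem exists_zero (n : NN) (q : ℤ) : ∃ k : ℕ, n (q, k) = 0 := by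
  obtain ⟨k, hk⟩ := Infinite.exists_notMem_finset (n.support.image Prod.snd)
  refine ⟨k, ?_⟩
  by_contra hne
  exact hk (Finset.mem_image.mpr ⟨(q, k), Finsupp.mem_support_iff.mpr hne, rfl⟩)

theorem not_directed_left (F : Finset R → Subring R) (hF : ∀ X : Finset R, (X : Set R) ⊆ F X)
    (hN : ∀ X : Finset R, IsNoetherianRing (F X)) (hmono : ∀ X Y : Finset R, X ⊆ Y → F X ≤ F Y) :
    False := by
  classical
  let X0 : Finset R := {r0, sg none 1}
  have h0 : r0 ∈ F X0 := hF X0 (by simp [X0])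
  have h1 : sg none 1 ∈ F X0 := hF X0 (by simp [X0])
  choose s hs hD using forced (F X0) (hN X0) h0 h1
  choose k hk using fun j : ℕ => exists_zero (s j).fst.snd (j : ℤ)
  let α : ℤ → ℕ := fun q => k q.toNat
  let X1 : Finset R := insert (sg (some α) 1) X0
  have h2 : sg (some α) 1 ∈ F X1 := hF X1 (by simp [X1])
  obtain ⟨n, hn⟩ := pin α (F X1) (hN X1) h2
  have h3 : s n ∈ F X1 := hmono X0 X1 (Finset.subset_insert _ _) (hs n)
  have h4 := hn (s n) h3 n le_rfl
  apply hD n
  rw [← h4]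
  have : α (n : ℤ) = k n := by simp [α]
  rw [this]
  exact hk n

theorem not_directed : ¬ DirectedFNoetherian R := by
  rintro ⟨F, hF, hmono⟩
  exact not_directed_left F (fun X => (hF X).1) (fun X => (hF X).2.1) hmono

end Pool.Agent.Helper861_FN
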