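import Pool.Agent.Helper861_FN.Basic
import Pool.Agent.Helper861_FN.Rg

/-! # Every finite subset of the ring lies in a noetherian subring -/

set_option autoImplicit false
set_option linter.unusedSectionVars false

namespace Pool.Agent.Helper861_FN

open TrivSqZeroExt

section Sec
variable {ι : Type*}

/-- defect of an element with respect to a section -/
noncomputable def df (θ : K →+* TrivSqZeroExt K (ι →₀ K)) (a : TrivSqZeroExt K (ι →₀ K)) : ι →₀ K :=
  a.snd - (θ a.fst).snd

variable {θ : K →+* TrivSqZeroExt K (ι →₀ K)}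

theorem df_add (a b : TrivSqZeroExt K (ι →₀ K)) : df θ (a + b) = df θ a + df θ b := by
  simp only [df, fst_add, snd_add, map_add]
  abel

theorem df_zero : df θ 0 = 0 := by simp [df]

theorem df_neg (a : TrivSqZeroExt K (ι →₀ K)) : df θ (-a) = - df θ a := by
  simp only [df, fst_neg, snd_neg, map_neg]
  abel

theorem df_mul (hθ : ∀ a, (θ a).fst = a) (a b : TrivSqZeroExt K (ι →₀ K)) :
    df θ (a * b) = a.fst • df θ b + b.fst • df θ a := by
  simp only [df, fst_mul, snd_mul, map_mul, hθ, smul_sub, op_smul_eq_smul]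
  abel

theorem df_th (hθ : ∀ a, (θ a).fst = a) (k : K) : df θ (θ k) = 0 := by
  simp only [df, hθ, sub_self]

/-- elements whose defect is supported in `J` -/
noncomputable def TT (θ : K →+* TrivSqZeroExt K (ι →₀ K)) (hθ : ∀ a, (θ a).fst = a)
    (J : Finset ι) : Subring (TrivSqZeroExt K (ι →₀ K)) where
  carrier := {a | ∀ p, p ∉ J → df θ a p = 0}
  mul_mem' := fun {a b} ha hb p hp => by
    rw [df_mul hθ, Finsupp.add_apply, Finsupp.smul_apply, Finsupp.smul_apply, ha p hp, hb p hp]
    simp
  one_mem' := fun p _ => by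
    have := df_th hθ 1
    rw [map_one] at this
    rw [this]; rfl
  add_mem' := fun {a b} ha hb p hp => by
    rw [df_add, Finsupp.add_apply, ha p hp, hb p hp, add_zero]
  zero_mem' := fun p _ => by rw [df_zero]; rfl
  neg_mem' := fun {a} ha p hp => by
    rw [df_neg, Finsupp.neg_apply, ha p hp, neg_zero]

theorem th_mem_TT (hθ : ∀ a, (θ a).fst = a) (J : Finset ι) (k : K) : θ k ∈ TT θ hθ J :=
  fun p _ => by rw [df_th hθ]; rfl

end Sec

/-- the section adapted to finitely many `α` -/
noncomputable def jC (C : Finset (ℤ → ℕ)) : K →+* A :=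
  th (fun q => ∑ k ∈ C.image (fun α => α q), Finsupp.single (q, k) 1)

theorem fst_jC (C : Finset (ℤ → ℕ)) (a : K) : (jC C a).fst = a := fst_th _ a

theorem pr_jC (C : Finset (ℤ → ℕ)) {α : ℤ → ℕ} (hα : α ∈ C) (a : K) :
    fI (some α) (jC C a) = ph a := by
  have h : (fI (some α)).comp (jC C) = ph := by
    apply hom_ext
    intro q
    show TrivSqZeroExt.map (pr α) (jC C (x q)) = ph (x q)
    rw [jC, th_x, map_add, map_inl, map_inr, ph, th_x]
    congr 2
    ext q'
    rw [pr_apply, Finsupp.finsetSum_apply]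
    simp only [Finsupp.single_apply, Prod.mk.injEq]
    by_cases hq : q = q'
    · subst hq
      simp only [true_and, if_true]
      rw [Finset.sum_ite_eq']
      rw [if_pos (Finset.mem_image_of_mem _ hα)]
    · simp [hq]
  exact congrArg (fun t => t a) h

/-- right twist -/
noncomputable def ta : I → (K →+* K)
  | none => sh 1
  | some _ => RingHom.id K

/-- inverse of the right twist -/
noncomputable def ti : I → (K →+* K)
  | none => sh (-1)
  | some _ => RingHom.id K

theorem ti_ta (i : I) (a : K) : ti i (ta i a) = a := by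
  cases i with
  | none =>
    show sh (-1) (sh 1 a) = a
    rw [sh_sh]
    simpa using sh_zero a
  | some α => rfl

theorem gI_eq (i : I) (a : A) : gI i a = ph (ta i a.fst) := by
  cases i with
  | none => rfl
  | some α => rfl

/-- the noetherian subring -/
noncomputable def SS (C : Finset (ℤ → ℕ)) (J : Finset (ℤ × ℕ)) (J1 : Finset ℤ)
    (hJ : ∀ p ∈ J, p.1 ∈ J1) : Subring R where
  carrier := {r | r.fst ∈ TT (jC C) (fst_jC C) J ∧ (∀ α, α ∉ C → co r (some α) = 0) ∧
    ∀ i, co r i ∈ TT ph fst_ph J1}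
  mul_mem' := fun {r s} hr hs => by
    obtain ⟨h1, h2, h3⟩ := hr
    obtain ⟨h4, h5, h6⟩ := hs
    refine ⟨by rw [fst_mul]; exact Subring.mul_mem _ h1 h4, fun α hα => ?_, fun i => ?_⟩
    · rw [co_mul, h2 α hα, h5 α hα, mul_zero, zero_mul, add_zero]
    · rw [co_mul]
      by_cases hi : i ∈ insert none (C.image some)
      · refine Subring.add_mem _ (Subring.mul_mem _ ?_ (h6 i)) (Subring.mul_mem _ (h3 i) ?_)
        · cases i with
          | none => exact th_mem_TT fst_ph J1 _
          | some α =>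
            have hα : α ∈ C := by simpa using hi
            intro q hq
            have e1 : df ph (fI (some α) r.fst) q = df (jC C) r.fst (q, α q) := by
              have h7 := congrArg TrivSqZeroExt.snd (pr_jC C hα r.fst.fst)
              have h8 : (fI (some α) (jC C r.fst.fst)).snd = pr α (jC C r.fst.fst).snd :=
                snd_map _ _
              have h9 : (fI (some α) r.fst).snd = pr α r.fst.snd := snd_map _ _
              have h10 : (fI (some α) r.fst).fst = r.fst.fst := fst_map _ _
              unfold df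
              rw [h9, h10, ← h7, h8]
              rfl
            rw [e1]
            exact h1 _ (fun h => hq (hJ _ h))
        · rw [gI_eq]
          exact th_mem_TT fst_ph J1 _
      · cases i with
        | none => simp at hi
        | some α =>
          have hα : α ∉ C := by simpa using hi
          rw [h2 α hα, h5 α hα, mul_zero, zero_mul, add_zero]
          exact Subring.zero_mem _
  one_mem' := ⟨Subring.one_mem _, fun α _ => co_one _, fun i => by
    rw [co_one]; exact Subring.zero_mem _⟩
  add_mem' := fun {r s} hr hs => by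
    obtain ⟨h1, h2, h3⟩ := hr
    obtain ⟨h4, h5, h6⟩ := hs
    refine ⟨by rw [fst_add]; exact Subring.add_mem _ h1 h4, fun α hα => ?_, fun i => ?_⟩
    · rw [co_add, h2 α hα, h5 α hα, add_zero]
    · rw [co_add]; exact Subring.add_mem _ (h3 i) (h6 i)
  zero_mem' := ⟨Subring.zero_mem _, fun α _ => co_zero _, fun i => by
    rw [co_zero]; exact Subring.zero_mem _⟩
  neg_mem' := fun {r} hr => by
    obtain ⟨h1, h2, h3⟩ := hr
    refine ⟨by rw [fst_neg]; exact Subring.neg_mem _ h1, fun α hα => ?_, fun i => ?_⟩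
    · rw [co_neg, h2 α hα, neg_zero]
    · rw [co_neg]; exact Subring.neg_mem _ (h3 i)

section Coord
variable (C : Finset (ℤ → ℕ)) (J : Finset (ℤ × ℕ)) (J1 : Finset ℤ) (hJ : ∀ p ∈ J, p.1 ∈ J1)

/-- the field in the subring -/
noncomputable def js : K →+* SS C J J1 hJ where
  toFun := fun k => ⟨inl (jC C k), th_mem_TT (fst_jC C) J k, fun _ _ => rfl, fun i => by
    have : co (inl (jC C k)) i = 0 := rfl
    rw [this]; exact Subring.zero_mem _⟩
  map_one' := by
    apply Subtype.ext
    show inl (jC C 1) = 1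
    rw [map_one, inl_one]
  map_mul' := fun a b => by
    apply Subtype.ext
    show inl (jC C (a * b)) = inl (jC C a) * inl (jC C b)
    rw [map_mul, inl_mul]
  map_zero' := by
    apply Subtype.ext
    show inl (jC C 0) = 0
    rw [map_zero, inl_zero]
  map_add' := fun a b => by
    apply Subtype.ext
    show inl (jC C (a + b)) = inl (jC C a) + inl (jC C b)
    rw [map_add, inl_add]

/-- the coordinate space -/
abbrev VV := K × (J → K) × ((Option C) → K × (J1 → K))

/-- index of a component -/
def ix (i : Option C) : I := i.map Subtype.val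

/-- the coordinates, twisted by homomorphisms -/
noncomputable def cd (ρ : I → (K →+* K)) : SS C J J1 hJ →+ VV C J J1 where
  toFun := fun r => ((r : R).fst.fst, (fun p => df (jC C) (r : R).fst p),
    fun i => (ρ (ix C i) (co (r : R) (ix C i)).fst,
      fun q => ρ (ix C i) (df ph (co (r : R) (ix C i)) q)))
  map_zero' := by
    refine Prod.ext rfl (Prod.ext ?_ ?_)
    · funext p
      show df (jC C) 0 p = 0
      rw [df_zero]; rfl
    · funext i
      refine Prod.ext ?_ ?_
      · show ρ (ix C i) (co 0 (ix C i)).fst = 0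
        rw [co_zero, fst_zero, map_zero]
      · funext q
        show ρ (ix C i) (df ph (co 0 (ix C i)) q) = 0
        rw [co_zero, df_zero, Finsupp.zero_apply, map_zero]
  map_add' := fun r s => by
    refine Prod.ext rfl (Prod.ext ?_ ?_)
    · funext p
      show df (jC C) ((r : R).fst + (s : R).fst) p = _
      rw [df_add]; rfl
    · funext i
      refine Prod.ext ?_ ?_
      · show ρ (ix C i) (co ((r : R) + s) (ix C i)).fst = _
        rw [co_add, fst_add, map_add]; rfl
      · funext q
        show ρ (ix C i) (df ph (co ((r : R) + s) (ix C i)) q) = _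
        rw [co_add, df_add, Finsupp.add_apply, map_add]; rfl

theorem eq_zero_of_TT {ι : Type*} {θ : K →+* TrivSqZeroExt K (ι →₀ K)} (hθ : ∀ a, (θ a).fst = a)
    {J : Finset ι} {a : TrivSqZeroExt K (ι →₀ K)} (ha : a ∈ TT θ hθ J) (h0 : a.fst = 0)
    (h1 : ∀ p ∈ J, df θ a p = 0) : a = 0 := by
  ext p
  · exact h0
  · have h2 : df θ a p = 0 := by
      by_cases hp : p ∈ J
      · exact h1 p hp
      · exact ha p hp
    unfold df at h2
    rw [h0, map_zero, snd_zero, sub_zero] at h2
    exact h2

theorem cd_inj (ρ : I → (K →+* K)) : Function.Injective (cd C J J1 hJ ρ) := by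
  rw [injective_iff_map_eq_zero]
  rintro ⟨r, h1, h2, h3⟩ h
  apply Subtype.ext
  show r = 0
  obtain ⟨e1, e2⟩ := Prod.mk.inj h
  obtain ⟨e3, e4⟩ := Prod.mk.inj e2
  refine ext_R ?_ ?_
  · exact eq_zero_of_TT (fst_jC C) h1 e1 (fun p hp => congrFun e3 ⟨p, hp⟩)
  · intro i
    have key : ∀ k : Option C, co r (ix C k) = 0 := by
      intro k
      have e5 := congrFun e4 k
      obtain ⟨e6, e7⟩ := Prod.mk.inj e5
      refine eq_zero_of_TT fst_ph (h3 _) ((map_eq_zero _).mp e6) (fun q hq => ?_)
      exact (map_eq_zero _).mp (congrFun e7 ⟨q, hq⟩)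
    cases i with
    | none => exact key none
    | some α =>
      by_cases hα : α ∈ C
      · exact key (some ⟨α, hα⟩)
      · exact h2 α hα

theorem fI_jC (i : Option C) (k : K) : fI (ix C i) (jC C k) = ph k := by
  cases i with
  | none =>
    show ph ((jC C k).fst) = ph k
    rw [fst_jC]
  | some α => exact pr_jC C α.2 k

theorem df_section_mul {ι : Type*} {θ : K →+* TrivSqZeroExt K (ι →₀ K)} (hθ : ∀ a, (θ a).fst = a)
    (k : K) (a : TrivSqZeroExt K (ι →₀ K)) : df θ (θ k * a) = k • df θ a := by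
  rw [df_mul hθ, df_th hθ, hθ, smul_zero, add_zero]

theorem cd_1 (ρ : I → (K →+* K)) (r : SS C J J1 hJ) : (cd C J J1 hJ ρ r).1 = (r : R).fst.fst := rfl

theorem cd_2 (ρ : I → (K →+* K)) (r : SS C J J1 hJ) (p : J) :
    (cd C J J1 hJ ρ r).2.1 p = df (jC C) (r : R).fst p := rfl

theorem cd_3 (ρ : I → (K →+* K)) (r : SS C J J1 hJ) (i : Option C) :
    ((cd C J J1 hJ ρ r).2.2 i).1 = ρ (ix C i) (co (r : R) (ix C i)).fst := rfl

theorem cd_4 (ρ : I → (K →+* K)) (r : SS C J J1 hJ) (i : Option C) (q : J1) :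
    ((cd C J J1 hJ ρ r).2.2 i).2 q = ρ (ix C i) (df ph (co (r : R) (ix C i)) q) := rfl

theorem js_val (k : K) : (js C J J1 hJ k : R) = inl (jC C k) := rfl

theorem co_inl (a : A) (i : I) : co (inl a) i = 0 := rfl

theorem VV_ext {u v : VV C J J1} (h1 : u.1 = v.1) (h2 : ∀ p, u.2.1 p = v.2.1 p)
    (h3 : ∀ i, (u.2.2 i).1 = (v.2.2 i).1) (h4 : ∀ i q, (u.2.2 i).2 q = (v.2.2 i).2 q) : u = v :=
  Prod.ext h1 (Prod.ext (funext h2) (funext fun i => Prod.ext (h3 i) (funext (h4 i))))

theorem VV_1 (k : K) (v : VV C J J1) : (k • v).1 = k * v.1 := rfl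

theorem VV_2 (k : K) (v : VV C J J1) (p : J) : (k • v).2.1 p = k * v.2.1 p := rfl

theorem VV_3 (k : K) (v : VV C J J1) (i : Option C) : ((k • v).2.2 i).1 = k * (v.2.2 i).1 := rfl

theorem VV_4 (k : K) (v : VV C J J1) (i : Option C) (q : J1) :
    ((k • v).2.2 i).2 q = k * (v.2.2 i).2 q := rfl

theorem co_left (k : K) (r : R) (i : Option C) :
    co (inl (jC C k) * r) (ix C i) = ph k * co r (ix C i) := by
  rw [co_mul, fst_inl, fI_jC, co_inl, zero_mul, add_zero]

theorem co_right (k : K) (r : R) (i : Option C) :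
    co (r * inl (jC C k)) (ix C i) = ph (ta (ix C i) k) * co r (ix C i) := by
  rw [co_mul, fst_inl, gI_eq, fst_jC, co_inl, mul_zero, zero_add, mul_comm]

theorem smul_ap {ι : Type*} (k : K) (n : ι →₀ K) (p : ι) : (k • n) p = k * n p := rfl

theorem cd_left (k : K) (r : SS C J J1 hJ) :
    cd C J J1 hJ (fun _ => RingHom.id K) (js C J J1 hJ k * r) =
      k • cd C J J1 hJ (fun _ => RingHom.id K) r := by
  refine VV_ext C J J1 ?_ (fun p => ?_) (fun i => ?_) (fun i q => ?_)
  · rw [VV_1, cd_1, cd_1, Subring.coe_mul, js_val, fst_mul, fst_inl, fst_mul, fst_jC]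
  · rw [VV_2, cd_2, cd_2, Subring.coe_mul, js_val, fst_mul, fst_inl, df_section_mul (fst_jC C),
      smul_ap]
  · rw [VV_3, cd_3, cd_3, Subring.coe_mul, js_val, co_left, fst_mul, fst_ph, RingHom.id_apply,
      RingHom.id_apply]
  · rw [VV_4, cd_4, cd_4, Subring.coe_mul, js_val, co_left, df_section_mul fst_ph,
      smul_ap, RingHom.id_apply, RingHom.id_apply]

theorem cd_right (k : K) (r : SS C J J1 hJ) :
    cd C J J1 hJ ti (r * js C J J1 hJ k) = k • cd C J J1 hJ ti r := by
  refine VV_ext C J J1 ?_ (fun p => ?_) (fun i => ?_) (fun i q => ?_)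
  · rw [VV_1, cd_1, cd_1, Subring.coe_mul, js_val, fst_mul, fst_inl, fst_mul, fst_jC, mul_comm]
  · rw [VV_2, cd_2, cd_2, Subring.coe_mul, js_val, fst_mul, fst_inl, mul_comm,
      df_section_mul (fst_jC C), smul_ap]
  · rw [VV_3, cd_3, cd_3, Subring.coe_mul, js_val, co_right, fst_mul, fst_ph, map_mul, ti_ta]
  · rw [VV_4, cd_4, cd_4, Subring.coe_mul, js_val, co_right, df_section_mul fst_ph,
      smul_ap, map_mul, ti_ta]

theorem SS_noeth : Noeth (SS C J J1 hJ) :=
  ⟨noeth_left (V := VV C J J1) (js C J J1 hJ) (cd C J J1 hJ (fun _ => RingHom.id K))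
      (cd_inj C J J1 hJ _) (cd_left C J J1 hJ),
    noeth_right (V := VV C J J1) (js C J J1 hJ) (cd C J J1 hJ ti) (cd_inj C J J1 hJ _)
      (cd_right C J J1 hJ)⟩

end Coord

theorem fNoetherian : FNoetherian R := by
  classical
  intro X
  let C : Finset (ℤ → ℕ) := X.biUnion (fun r => r.snd.support.biUnion (fun i =>
    match i with
    | none => ∅
    | some α => {α}))
  have hC : ∀ r ∈ X, ∀ α, α ∉ C → co r (some α) = 0 := by
    intro r hr α hα
    by_contra hne
    apply hα
    refine Finset.mem_biUnion.mpr ⟨r, hr, Finset.mem_biUnion.mpr ⟨some α, ?_, ?_⟩⟩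
    · rw [DFinsupp.mem_support_iff]
      exact hne
    · simp
  let J : Finset (ℤ × ℕ) := X.biUnion (fun r => (df (jC C) r.fst).support)
  let J1 : Finset ℤ := J.image Prod.fst ∪ X.biUnion (fun r => (insert none (C.image some)).biUnion
    (fun i => (df ph (co r i)).support))
  have hJ : ∀ p ∈ J, p.1 ∈ J1 := fun p hp =>
    Finset.mem_union_left _ (Finset.mem_image_of_mem _ hp)
  refine ⟨SS C J J1 hJ, ?_, SS_noeth C J J1 hJ⟩
  intro r hr
  have hr : r ∈ X := hr
  refine ⟨?_, hC r hr, ?_⟩
  · intro p hp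
    by_contra hne
    exact hp (Finset.mem_biUnion.mpr ⟨r, hr, Finsupp.mem_support_iff.mpr hne⟩)
  · intro i
    by_cases hi : i ∈ insert none (C.image some)
    · intro q hq
      by_contra hne
      exact hq (Finset.mem_union_right _ (Finset.mem_biUnion.mpr ⟨r, hr,
        Finset.mem_biUnion.mpr ⟨i, hi, Finsupp.mem_support_iff.mpr hne⟩⟩))
    · cases i with
      | none => simp at hi
      | some α =>
        have hα : α ∉ C := by simpa using hi
        rw [hC r hr α hα]
        exact Subring.zero_mem _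

end Pool.Agent.Helper861_FN
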